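import Pool.Agent.R712.SoMain

/-!
# MP_393361_al, Q1

For every factoring subalgebra `U` of `so_3((λ))` and every admissible triple `R_1, R_2, R_3`, the
`U`-module generated by the triple is `U^{⊥_P}` for a scalar Taylor series `P`. The admissible
triples are exactly the triples `(1 + λ S) R_i^0`, `S ∈ ℂ[[λ]]`, where `R_i^0 ∈ U^{⊥_1}`.
-/

set_option autoImplicit false

namespace Pool.Agent.Results.MP_393361_al.AdmissibleModules

open Pool.R712.So3

theorem result
    -- a factoring subalgebra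
    (U : Submodule ℂ L) (hU : Factoring U)
    -- its elements `E_i = e_i/λ + O(1)` and their double commutator relations
    (E : Fin 3 → L) (hE : IsBasic E) (hEU : ∀ i, E i ∈ U)
    (u v w x y z : ℂ) (B D : Matrix (Fin 3) (Fin 3) ℂ)
    (hrel : DoubleRel E (matA u v w) B (matC u v w x y z) D) :
    (∃ R0 : Fin 3 → L, (∀ i, R0 i ∈ perp 1 U) ∧
      ∀ R : Fin 3 → L, (IsBasic R ∧ AdmRel E (matA u v w) (matC u v w x y z) R) ↔
        ∃ S : PowerSeries ℂ, ∀ i, R i = ((1 + PowerSeries.X * S : PowerSeries ℂ) : F) • R0 i) ∧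
    ∀ R : Fin 3 → L, IsBasic R → AdmRel E (matA u v w) (matC u v w x y z) R →
      ∃ P : PowerSeries ℂ, genMod U R = perp P U := by
  obtain ⟨R0, hR0, hR0p⟩ := exists_R0 hU
  have hadm := adm_R0 hU hE hEU hR0 hR0p hrel
  refine ⟨⟨R0, hR0p, fun R => ⟨fun hR => adm_unique hE hR.1 hR0 hR.2 hadm, ?_⟩⟩, ?_⟩
  · rintro ⟨S, hS⟩
    have hRfun : R = fun i => ((1 + PowerSeries.X * S : PowerSeries ℂ) : F) • R0 i := funext hS
    rw [hRfun]
    exact ⟨basic_smul hR0 S, hadm.smul _⟩
  · intro R hR hRadm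
    obtain ⟨S, hS⟩ := adm_unique hE hR hR0 hRadm hadm
    exact ⟨_, genMod_eq hU hE hEU hR hR0p S hS⟩

end Pool.Agent.Results.MP_393361_al.AdmissibleModules
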